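import Pool.Agent.K3h50.KO.Main

/-!
# Brauer's k(B) conjecture: groups of almost all orders suffice

`O` is a valuation subring of `ℂ` whose maximal ideal contains the prime `p`; it defines the
`p`-blocks of finite groups. `GenBy Q P` says that `P` is generated by its subgroups isomorphic
to `Q`.

`Bound p O Q ε C n` is the weak inequality `k(B) ≤ C |D| ^ (1 + ε)` for the groups of order `n`, and
even only for the blocks, fixed by all field automorphisms, of the groups `P × Z` of order `n` with
`P` perfect and generated by subgroups isomorphic to `Q` and `Z` cyclic of order prime to `p`.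

The `k(B)` conjecture holds for all blocks of all finite groups if for each `ε > 0` there is `C` such
that the weak inequality holds for almost all orders `n` (in the sense that the exceptional orders
have lower density zero), or for one multiple `c y`, `y` prime to `p`, of each integer `c`.

Idea of the proof. A violation `k(B) > |D|` gives one for a Galois stable block of a perfect group
`X`, by the theorem `PerfectStableBlocks` of this folder; the powers of this block, multiplied by the
principal block of a cyclic group of order `y` prime to `p`, violate the weak inequality for the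
orders `|X| ^ t y`, with `t` fixed and `y` arbitrary.
-/

set_option autoImplicit false

namespace Pool.Agent.Results.MP_a15589_al.AlmostAllOrders

open Pool.Agent.H254R3.IN Pool.Agent.Q288.MB Pool.Agent.K3h3.KB
open Pool.Agent.K3h50.KO (Bound)

/-- The lower density of the set `A` of integers is zero: there are arbitrarily large `N` such that
`A` has at most `δ N` elements between `1` and `N`, for each `δ > 0`. -/
def LowerDensityZero (A : Set ℕ) : Prop :=
  ∀ (δ : ℝ) (N₀ : ℕ), 0 < δ → ∃ N : ℕ, N₀ ≤ N ∧
    ({n : ℕ | 1 ≤ n ∧ n ≤ N ∧ n ∈ A}.ncard : ℝ) ≤ δ * N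

/-- Let `p` be a prime and `Q` a nontrivial finite group. Brauer's inequality `k(B) ≤ p ^ d(B)`
holds for all `p`-blocks of all finite groups if and only if for every `ε > 0` there is a constant
`C` such that the weak inequality `Bound p O Q ε C n` holds for all `n` outside a set of lower density
zero; and if and only if for every `ε > 0` there is `C` such that each positive integer `c` has a
multiple `c y`, `y` prime to `p`, with the weak inequality. -/
theorem result (p : ℕ) [Fact p.Prime] (O : ValuationSubring ℂ) (hpO : (p : ℂ) ∈ O.nonunits)
    (Q : Type) [Group Q] [Finite Q] [Nontrivial Q] :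
    ((∀ (G : Type) [Group G] [Finite G] (B : Set (G → ℂ)) (d : ℕ), IsBlock O B →
        HasDefect p B d → Nat.card B ≤ p ^ d) ↔
      ∀ ε : ℝ, 0 < ε → ∃ C : ℝ, LowerDensityZero {n : ℕ | ¬ Bound p O Q ε C n}) ∧
    ((∀ (G : Type) [Group G] [Finite G] (B : Set (G → ℂ)) (d : ℕ), IsBlock O B →
        HasDefect p B d → Nat.card B ≤ p ^ d) ↔
      ∀ ε : ℝ, 0 < ε → ∃ C : ℝ, ∀ c : ℕ, 0 < c → ∃ y : ℕ, ¬ p ∣ y ∧ Bound p O Q ε C (c * y)) :=
  ⟨Pool.Agent.K3h50.KO.iff_density hpO Q, Pool.Agent.K3h50.KO.iff_multiples hpO Q⟩

end Pool.Agent.Results.MP_a15589_al.AlmostAllOrders
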