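import Pool.Agent.K3h36.KBO.Main

/-!
# Brauer's k(B) conjecture: it suffices to count the automorphism conjugates of one character

`O` is a valuation subring of `ℂ` whose maximal ideal contains the prime `p`; it defines the
`p`-blocks of finite groups. For a block `B` of `X` and `χ` in `B`, `conjIn B χ` is the set of all
characters in `B` which are images of `χ` under automorphisms of `X`.

Idea of the proof. Let `B` be a block of `G` with `k(B) > p ^ d(B)`. The characters in the block
`B ⊗ ⋯ ⊗ B` of `X = G ^ t` are the products `ψ` of `t` characters in `B`; the type of `ψ` is the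
function which counts how often each character in `B` occurs as a factor. Characters of the same type
are conjugate under the permutations of the factors of `G ^ t`, and there are at most
`(t + 1) ^ k(B)` types. Hence some orbit has at least `k(B) ^ t / (t + 1) ^ k(B)` elements, which for
large `t` is larger than `C (p ^ d(B)) ^ t (|G| ^ t) ^ ε` when `ε` is small.
-/

set_option autoImplicit false

namespace Pool.Agent.Results.MP_a15589_al.AutomorphismOrbits

open Pool.Agent.H254R3.IN Pool.Agent.K3h3.KB Pool.Agent.K3h36.KBO

/-- Let `p` be a prime. Brauer's inequality `k(B) ≤ p ^ d(B)` holds for all `p`-blocks of all finite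
groups if and only if for every `ε > 0` there is a constant `C` such that for every block `B` of
every finite group `X` and every `χ` in `B` the number of the characters in `B` which are conjugate
to `χ` under the automorphism group of `X` is at most `C p ^ d(B) |X| ^ ε`. -/
theorem result (p : ℕ) [Fact p.Prime] (O : ValuationSubring ℂ) (_ : (p : ℂ) ∈ O.nonunits) :
    (∀ (G : Type) [Group G] [Finite G] (B : Set (G → ℂ)) (d : ℕ), IsBlock O B →
        HasDefect p B d → Nat.card B ≤ p ^ d) ↔
      ∀ ε : ℝ, 0 < ε → ∃ C : ℝ, ∀ (X : Type) [Group X] [Finite X] (B : Set (X → ℂ)) (d : ℕ),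
        IsBlock O B → HasDefect p B d → ∀ χ ∈ B,
          (Nat.card (conjIn B χ) : ℝ) ≤ C * (p ^ d : ℕ) * (Nat.card X : ℝ) ^ ε :=
  equivalence O

end Pool.Agent.Results.MP_a15589_al.AutomorphismOrbits
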