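import Pool.Agent.K3h3.KB.Fin

/-!
# Brauer's k(B) conjecture: a weak bound for Galois-stable blocks of perfect groups suffices

`O` is a valuation subring of `ℂ` whose maximal ideal contains the prime `p`; it defines the
`p`-blocks of finite groups. `GenBy Q X` says that `X` is generated by its subgroups isomorphic
to `Q`.

Idea of the proof. Let `B` be a block of `G` with `k(B) > |D|`. For a large `r` prime to `p` the
`r` blocks `B ⊠ λ`, `λ ∈ Irr(C_r)`, of `G × C_r` are different, hence the product of all of them
has trivial stabiliser in the alternating group on `Irr(C_r)`, and the characters of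
`X = (G × C_r) ≀ A_r` induced from this product form a block `B̂` with `k(B̂) = k(B) ^ r` and defect
group of order `|D| ^ r`. The normal closure `K` of `A_r` in `X` is perfect, `X / K` is abelian of
order `m ≤ |G| r`, and a block `b` of `K` below `B̂` has `k(b) ≥ k(B̂) / m²` and defect groups of
order at most `m |D| ^ r`. Hence `b` violates the inequality, too. The same construction with the
Galois conjugates of `b` (and an index set on which the Galois group acts by even permutations)
makes the block stable under all field automorphisms, and direct powers give the weak bound.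
-/

set_option autoImplicit false

namespace Pool.Agent.Results.MP_a15589_al.PerfectStableBlocks

open Pool.Agent.H254R3.IN Pool.Agent.Q288.MB Pool.Agent.K3h3.KB

/-- Let `p` be a prime and `Q` a nontrivial finite group. Brauer's inequality `k(B) ≤ p ^ d(B)`
holds for all `p`-blocks of all finite groups if and only if for every `ε > 0` there is a constant
`C` such that `k(B) ≤ C p ^ d(B) |X| ^ ε` for all blocks `B` of finite perfect groups `X` generated
by subgroups isomorphic to `Q` such that `B` is fixed by all field automorphisms of `ℂ`. -/
theorem result (p : ℕ) [Fact p.Prime] (O : ValuationSubring ℂ) (hpO : (p : ℂ) ∈ O.nonunits)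
    (Q : Type) [Group Q] [Finite Q] [Nontrivial Q] :
    (∀ (G : Type) [Group G] [Finite G] (B : Set (G → ℂ)) (d : ℕ), IsBlock O B →
        HasDefect p B d → Nat.card B ≤ p ^ d) ↔
      ∀ ε : ℝ, 0 < ε → ∃ C : ℝ, ∀ (X : Type) [Group X] [Finite X] (B : Set (X → ℂ)) (d : ℕ),
        commutator X = ⊤ → GenBy Q X → IsBlock O B → (∀ σ : ℂ ≃+* ℂ, gal σ B = B) →
        HasDefect p B d → (Nat.card B : ℝ) ≤ C * (p ^ d : ℕ) * (Nat.card X : ℝ) ^ ε :=
  equivalence hpO Q

end Pool.Agent.Results.MP_a15589_al.PerfectStableBlocks
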