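import Pool.Agent.K3h3.KT.Fin

/-!
# Brauer's k(B) conjecture: primitive groups with socle a power of an alternating group suffice

`O` is a valuation subring of `ℂ` whose maximal ideal contains the prime `p`; it defines the
`p`-blocks of finite groups. `GenBy Q X` says that `X` is generated by its subgroups isomorphic
to `Q`, `IsPrimGroup X` that `X` has a faithful primitive permutation representation, and
`AltSocle p T` that `T` is the only minimal normal subgroup of the group and isomorphic to a power
of the alternating group of degree `n`, where `n ≥ 5` and `p ≤ n ≤ p + 3`.

Idea of the proof. By the theorem `PerfectStableBlocks` (for the powers of a group) there would be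
Galois-stable blocks `B` of perfect groups `S` generated by copies of `Q` such that `k(B)` is larger
than `p ^ d |S| ^ ε`. The alternating group `K` of degree 5, 6 or `p + 1` has a rational irreducible
character `θ` such that `θ(1)` and `|K|` have the same `p`-part (of degree 4, 9 or `p`). The
character `θ ⊠ ⋯ ⊠ θ` of the base group of the regular wreath product `W = K ≀ S` extends to a
character `E` of `W`. As `S` is perfect, the extension is unique (Gallagher), hence `E` is rational.
The characters `E ψ`, `ψ ∈ B`, form a block of `W` of the same defect: the sums of `E` over the
intersections of a class with the cosets of the base group, divided by `E(1)`, are algebraic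
integers and class functions on `S`, and the central characters of `E ψ` are given by them and the
central character of `ψ`. The group `W` is perfect and generated by copies of `Q`, its base group is
the only minimal normal subgroup and has index `|S|`, and `W` is primitive in the product action.
-/

set_option autoImplicit false

namespace Pool.Agent.Results.MP_a15589_al.TrivialRadical

open Pool.Agent.H254R3.IN Pool.Agent.Q288.MB Pool.Agent.K3h3.KB Pool.Agent.K3h3.KT

/-- Let `p` be a prime and `Q` a nontrivial finite group. Brauer's inequality `k(B) ≤ p ^ d(B)`
holds for all `p`-blocks of all finite groups if and only if for every `ε > 0` there is a constant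
`C` such that `k(B) ≤ C p ^ d(B) |X : T| ^ ε` whenever `X` is a finite perfect group generated by
subgroups isomorphic to `Q`, with a faithful primitive permutation representation, with a unique
minimal normal subgroup `T`, a power of the alternating group of degree `n` for an `n ≥ 5` such that
`p ≤ n ≤ p + 3`, and `B` is a block of `X` fixed by all field automorphisms of `ℂ`. -/
theorem result (p : ℕ) [Fact p.Prime] (O : ValuationSubring ℂ) (hpO : (p : ℂ) ∈ O.nonunits)
    (Q : Type) [Group Q] [Finite Q] [Nontrivial Q] :
    (∀ (G : Type) [Group G] [Finite G] (B : Set (G → ℂ)) (d : ℕ), IsBlock O B →
        HasDefect p B d → Nat.card B ≤ p ^ d) ↔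
      ∀ ε : ℝ, 0 < ε → ∃ C : ℝ, ∀ (X : Type) [Group X] [Finite X] (T : Subgroup X)
        (B : Set (X → ℂ)) (d : ℕ), commutator X = ⊤ → GenBy Q X → IsPrimGroup X →
        AltSocle p T → IsBlock O B → (∀ σ : ℂ ≃+* ℂ, gal σ B = B) → HasDefect p B d →
        (Nat.card B : ℝ) ≤ C * (p ^ d : ℕ) * (T.index : ℝ) ^ ε :=
  reduction hpO Q

end Pool.Agent.Results.MP_a15589_al.TrivialRadical
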